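import Pool.Agent.H37.CNW.Stmts

/-!
# Row XLY of the board `cnw`: regular functions `r_ω` with a large pole of `r_(ω₀)` at `P`
-/

set_option autoImplicit false

namespace Pool.CND

open Finset

/-- the place `z ↦ P.ord (σ z)` -/
private noncomputable def xlyPl {k L : Type} [Field k] [Field L] [Algebra k L] (P : Place k L)
    (σ : L ≃ₐ[k] L) : Place k L where
  ord z := P.ord (σ z)
  ord_mul x y hx hy := by
    rw [map_mul]
    exact P.ord_mul _ _ (by simpa using hx) (by simpa using hy)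
  ord_add x y hx hy hxy := by
    rw [map_add]
    refine P.ord_add _ _ (by simpa using hx) (by simpa using hy) ?_
    rw [← map_add]
    exact (map_ne_zero_iff _ σ.injective).2 hxy
  ord_surj := by
    obtain ⟨x, hx, h1⟩ := P.ord_surj
    exact ⟨σ.symm x, by simpa using hx, by rw [AlgEquiv.apply_symm_apply]; exact h1⟩
  ord_const c hc := by
    rw [AlgEquiv.commutes]
    exact P.ord_const c hc
  residue x hx h0 := by
    obtain ⟨c, hc⟩ := P.residue (σ x) (by simpa using hx) h0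
    refine ⟨c, ?_⟩
    rcases hc with hc | hc
    · left
      apply σ.injective
      rw [hc, AlgEquiv.commutes]
    · right
      rw [map_sub, AlgEquiv.commutes]
      exact hc

private theorem xly_prod {k L ι : Type} [Field k] [Field L] [Algebra k L] (P : Place k L)
    (s : Finset ι) (f : ι → L) (hf : ∀ i, f i ≠ 0) :
    P.ord (∏ i ∈ s, f i) = ∑ i ∈ s, P.ord (f i) := by
  classical
  induction s using Finset.induction_on with
  | empty => simp [P.ord_one]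
  | insert a s ha ih =>
    rw [Finset.prod_insert ha, Finset.sum_insert ha,
      P.ord_mul _ _ (hf a) (Finset.prod_ne_zero_iff.2 fun i _ => hf i), ih]

theorem xly_thm (h1 : S_XRR) (h2 : S_XNU) (h3 : S_FNA) : S_XLY := by
  intro p k L H Ω _ _ _ _ _ _ _ _ _ ρ t P ω₀ J hp hch hcov ht hJ
  classical
  have := Fact.mk hp
  have : CharP L p := charP_of_injective_algebraMap (algebraMap k L).injective p
  have hinf : Infinite k := IsAlgClosed.instInfinite
  obtain ⟨n₀, hn₀⟩ := h1 k L H ρ t P hcov ht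
  obtain ⟨ξ, hξe, hξr, hξ⟩ := h2 p k L H Ω ρ t hp hch hcov
  have htf : ∀ h : H, ρ h t = t := fun h =>
    (hcov.fixed t).2 (IntermediateField.mem_adjoin_simple_self k t) h
  have hρ0 : ∀ (h : H) (x : L), x ≠ 0 → ρ h x ≠ 0 := fun h x hx =>
    (map_ne_zero_iff _ (ρ h).injective).2 hx
  have hram : ∀ h : H, h ∈ ram P ρ 0 ↔ Fixes P (ρ h) := by
    intro h
    refine ⟨fun hh => hh.1, fun hh => ⟨hh, fun u hu hu1 => ?_⟩⟩
    by_cases he : ρ h u = u
    · exact Or.inl he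
    · right
      have h4 : P.Ge (ρ h u - u) 1 :=
        P.ge_sub (Or.inr (by rw [hh u hu, hu1])) (Or.inr (by rw [hu1]))
      have h5 := h4.resolve_left (sub_ne_zero.2 he)
      push_cast
      omega
  -- the stabiliser
  obtain ⟨U, hU⟩ : ∃ U : Subgroup H, ∀ h : H, h ∈ U ↔ h • ω₀ = ω₀ :=
    ⟨MulAction.stabilizer H ω₀, fun h => MulAction.mem_stabilizer_iff⟩
  let _ : Fintype U := Fintype.ofFinite _
  -- a bound for the poles of `ξ`
  obtain ⟨C, hC, hC0⟩ : ∃ C : ℕ, (∀ ω, -(C : ℤ) ≤ P.ord (ξ ω)) ∧ -(C : ℤ) ≤ P.ord 0 := by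
    refine ⟨∑ ω : Ω, (P.ord (ξ ω)).natAbs + (P.ord 0).natAbs, fun ω => ?_, ?_⟩
    · have h4 : (P.ord (ξ ω)).natAbs ≤ ∑ ω : Ω, (P.ord (ξ ω)).natAbs :=
        Finset.single_le_sum (f := fun ω => (P.ord (ξ ω)).natAbs) (fun _ _ => Nat.zero_le _)
          (Finset.mem_univ ω)
      omega
    · omega
  refine ⟨C, max n₀ (C + 1), fun n hn => ?_⟩
  obtain ⟨ℓ₀, hℓ0, hℓr, hℓo, hℓh⟩ := hn₀ n (le_trans (le_max_left _ _) hn)
  have hn1 : C + 1 ≤ n := le_trans (le_max_right _ _) hn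
  -- add a constant
  obtain ⟨ℓ, hl0, hlr, hlo, hlh⟩ : ∃ ℓ : L, ℓ ≠ 0 ∧ Reg k t ℓ ∧ P.ord ℓ = -(n : ℤ) ∧
      ∀ h : H, ¬ Fixes P (ρ h) → P.ord (ρ h ℓ) = 0 := by
    have h5 : ∀ h : H, ∃ c₀ : k, ¬ Fixes P (ρ h) → ∀ c : k, c ≠ c₀ →
        P.ord (ρ h ℓ₀ + algebraMap k L c) = 0 := by
      intro h
      by_cases hh : Fixes P (ρ h)
      · exact ⟨0, fun h' => absurd hh h'⟩
      obtain ⟨c₁, hc₁⟩ := P.residue (ρ h ℓ₀) (hρ0 h _ hℓ0)
        ((hℓh h hh).resolve_left (hρ0 h _ hℓ0))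
      refine ⟨-c₁, fun _ c hc => ?_⟩
      have hcc : c₁ + c ≠ 0 := by
        intro h0
        apply hc
        linear_combination h0
      have h6 : ρ h ℓ₀ + algebraMap k L c =
          algebraMap k L (c₁ + c) + (ρ h ℓ₀ - algebraMap k L c₁) := by
        rw [map_add]
        ring
      have h7 : algebraMap k L (c₁ + c) ≠ 0 := (map_ne_zero _).2 hcc
      have h8 : P.ord (algebraMap k L (c₁ + c)) = 0 := P.ord_const _ hcc
      have h9 : P.Ge (ρ h ℓ₀ - algebraMap k L c₁) (P.ord (algebraMap k L (c₁ + c)) + 1) := by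
        rw [h8]
        rcases hc₁ with hc₁ | hc₁
        · exact Or.inl (by rw [hc₁, sub_self])
        · exact Or.inr (by omega)
      rw [h6, (P.ord_add_of_lt h7 h9).2, h8]
    choose c₀ hc₀ using h5
    obtain ⟨c, hc⟩ := (Set.finite_range c₀).exists_notMem
    have h10 : P.Ge (algebraMap k L c) (P.ord ℓ₀ + 1) :=
      P.ge_mono (P.ge_const c) (by rw [hℓo]; omega)
    obtain ⟨h11, h12⟩ := P.ord_add_of_lt hℓ0 h10
    refine ⟨ℓ₀ + algebraMap k L c, h11, ?_, by rw [h12, hℓo], ?_⟩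
    · intro Q hQ
      exact Q.ge_add (hℓr Q hQ : Q.Ge ℓ₀ 0) (Q.ge_const c)
    · intro h hh
      rw [map_add, AlgEquiv.commutes]
      exact hc₀ h hh c fun h' => hc ⟨h, h'.symm⟩
  -- the norm
  obtain ⟨N, hN⟩ : ∃ N : L, N = ∏ u : U, ρ (u : H) ℓ := ⟨_, rfl⟩
  have hρN : ∀ h : H, ρ h N = ∏ u : U, ρ (h * u) ℓ := by
    intro h
    rw [hN, map_prod]
    refine Finset.prod_congr rfl fun u _ => ?_
    rw [map_mul, AlgEquiv.mul_apply]
  have hNU : ∀ h ∈ U, ρ h N = N := by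
    intro h hh
    rw [hρN, hN]
    exact Fintype.prod_equiv (Equiv.mulLeft (⟨h, hh⟩ : U)) _ _ (fun u => rfl)
  have hN0 : N ≠ 0 := by
    rw [hN]
    exact Finset.prod_ne_zero_iff.2 fun u _ => hρ0 u ℓ hl0
  have hJU : J ≤ U := fun h hh => (hU h).2 ((hJ h).1 hh).2
  have hNo1 : P.ord N = -((n * Nat.card J : ℕ) : ℤ) := by
    have h5 : ∀ u : U, P.ord (ρ (u : H) ℓ) = if (u : H) ∈ J then -(n : ℤ) else 0 := by
      intro u
      by_cases hu : (u : H) ∈ J
      · rw [if_pos hu, (((hJ _).1 hu).1.1 : Fixes P (ρ (u : H))) ℓ hl0, hlo]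
      · rw [if_neg hu]
        apply hlh
        intro hf
        exact hu ((hJ _).2 ⟨(hram _).2 hf, (hU _).1 u.2⟩)
    have h6 : Nat.card J = (univ.filter (fun u : U => (u : H) ∈ J)).card := by
      rw [← Nat.card_congr (Subgroup.subgroupOfEquivOfLe hJU).toEquiv]
      have h7 : Nat.card (J.subgroupOf U) = Nat.card {u : U // (u : H) ∈ J} := rfl
      rw [h7, Nat.card_eq_fintype_card, Fintype.card_subtype]
    rw [hN, xly_prod P univ _ (fun u : U => hρ0 (u : H) ℓ hl0), Finset.sum_congr rfl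
      fun u _ => h5 u, ← Finset.sum_filter, Finset.sum_const, ← h6, nsmul_eq_mul]
    push_cast
    ring
  have hNo2 : ∀ h : H, (¬ ∃ i ∈ ram P ρ 0, h • ω₀ = i • ω₀) → P.ord (ρ h N) = 0 := by
    intro h hh
    rw [hρN, xly_prod P univ _ (fun u : U => hρ0 (h * u) ℓ hl0)]
    refine Finset.sum_eq_zero fun u _ => hlh _ fun hf => hh ⟨h * u, (hram _).2 hf, ?_⟩
    rw [mul_smul, (hU _).1 u.2]
  have hNr : ∀ h : H, Reg k t (ρ h N) := by
    intro h Q hQ
    rw [hρN]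
    refine Finset.prod_induction _ (fun x => Q.Ge x 0) (fun a b ha hb => ?_)
      (Or.inr (by rw [Q.ord_one])) (fun u _ => ?_)
    · have h5 := Q.ge_mul ha hb
      rwa [add_zero] at h5
    · have h6 := hlr (xlyPl Q (ρ (h * u))) (by
        show 0 ≤ Q.ord (ρ (h * u) t)
        rw [htf]
        exact hQ)
      rcases h6 with h6 | h6
      · exact absurd h6 hl0
      · exact Or.inr h6
  -- the functions `N'`
  have hsur : ∀ ω : Ω, ∃ g : H, g • ω₀ = ω := fun ω => MulAction.exists_smul_eq H ω₀ ω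
  choose g hg using hsur
  obtain ⟨N', hN'd⟩ : ∃ N' : Ω → L, ∀ ω, N' ω = ρ (g ω) N := ⟨_, fun _ => rfl⟩
  have hN' : ∀ h ω, ρ h (N' ω) = N' (h • ω) := by
    intro h ω
    have h5 : (g (h • ω))⁻¹ * (h * g ω) ∈ U := by
      rw [hU, mul_smul, mul_smul, hg, inv_smul_eq_iff, hg]
    have h6 : h * g ω = g (h • ω) * ((g (h • ω))⁻¹ * (h * g ω)) := by group
    rw [hN'd, hN'd, ← AlgEquiv.mul_apply, ← map_mul, h6, map_mul, AlgEquiv.mul_apply, hNU _ h5]
  -- the bad values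
  let Bad : (Ω → ZMod p) → Set k := fun b =>
    {α : k | ∃ w : L, w ^ p - w = ∑ ω : Ω, (((b ω).val : ℕ) : L) * (N' ω + α • ξ ω)}
  have hfin : ∀ b : Ω → ZMod p, b ≠ 0 → (Bad b).Finite := by
    intro b hb
    obtain ⟨u, hu⟩ := Function.ne_iff.mp hb
    have hu' : ¬ p ∣ (b u).val := by
      intro hd
      have h5 := Nat.eq_zero_of_dvd_of_lt hd (ZMod.val_lt (b u))
      exact hu ((ZMod.val_eq_zero (b u)).mp h5)
    set ζ : L := ∑ u : Ω, (((b u).val : ℕ) : L) * ξ u with hζ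
    have hζc : ∀ c : k, ζ ≠ algebraMap k L c := fun c =>
      hξ (fun u => (b u).val) ⟨u, hu'⟩ c
    have hF := h3 p k L H ρ t ζ hp hch hcov hζc
    rcases Set.eq_empty_or_nonempty (Bad b) with he | ⟨α₀, w₀, hw₀⟩
    · rw [he]
      exact Set.finite_empty
    · refine (hF.image (fun β => α₀ + β)).subset ?_
      rintro α ⟨w, hw⟩
      refine ⟨α - α₀, ⟨w - w₀, ?_⟩, by ring⟩
      have h6 : (w - w₀) ^ p = w ^ p - w₀ ^ p := sub_pow_char w w₀
      have h7 : ∀ β : k, ∑ u : Ω, (((b u).val : ℕ) : L) * (N' u + β • ξ u) =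
          ∑ u : Ω, (((b u).val : ℕ) : L) * N' u + β • ζ := by
        intro β
        rw [hζ, Finset.smul_sum, ← Finset.sum_add_distrib]
        refine Finset.sum_congr rfl fun u _ => ?_
        rw [mul_add, mul_smul_comm]
      rw [h7] at hw hw₀
      rw [h6, sub_smul]
      linear_combination hw - hw₀
  obtain ⟨α, hα⟩ : ∃ α : k, ∀ b : Ω → ZMod p, b ≠ 0 → α ∉ Bad b := by
    have h8 : (⋃ b ∈ {b : Ω → ZMod p | b ≠ 0}, Bad b).Finite := by
      apply Set.Finite.biUnion (Set.toFinite _)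
      intro b hb
      exact hfin b hb
    obtain ⟨α, hα⟩ := h8.exists_notMem
    refine ⟨α, fun b hb hmem => hα ?_⟩
    simp only [Set.mem_iUnion]
    exact ⟨b, hb, hmem⟩
  have hge : ∀ ω : Ω, P.Ge (α • ξ ω) (-(C : ℤ)) := by
    intro ω
    rw [Algebra.smul_def]
    refine P.ge_mono (P.ge_mul (P.ge_const α) (P.ge_ord (ξ ω))) ?_
    have := hC ω
    omega
  refine ⟨fun ω => N' ω + α • ξ ω, ?_, ?_, ?_, ?_, ?_⟩
  · intro h ω
    show ρ h (N' ω + α • ξ ω) = N' (h • ω) + α • ξ (h • ω)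
    rw [map_add, map_smul, hN', hξe]
  · intro ω Q hQ
    have h13 : Q.Ge (α • ξ ω) 0 := by
      rw [Algebra.smul_def]
      have := Q.ge_mul (Q.ge_const α) (hξr ω Q hQ : Q.Ge (ξ ω) 0)
      rwa [add_zero] at this
    have h14 : Q.Ge (N' ω) 0 := by
      rw [hN'd]
      exact hNr (g ω) Q hQ
    exact Q.ge_add h14 h13
  · show P.ord (N' ω₀ + α • ξ ω₀) = _
    have h5 : N' ω₀ = N := by rw [hN'd, hNU _ ((hU _).2 (hg ω₀))]
    have h6 : 1 ≤ Nat.card J := Nat.card_pos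
    have h7 : C + 1 ≤ n * Nat.card J := hn1.trans (Nat.le_mul_of_pos_right n h6)
    rw [h5, (P.ord_add_of_lt hN0 ?_).2, hNo1]
    refine P.ge_mono (hge ω₀) ?_
    rw [hNo1]
    omega
  · intro ω hω
    show -(C : ℤ) ≤ P.ord (N' ω + α • ξ ω)
    have h5 : P.Ge (N' ω) (-(C : ℤ)) := by
      right
      rw [hN'd, hNo2 (g ω)]
      · omega
      · rintro ⟨i, hi, hi'⟩
        exact hω ⟨i, hi, by rw [← hi', hg]⟩
    rcases P.ge_add h5 (hge ω) with h6 | h6
    · rw [h6]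
      exact hC0
    · exact h6
  · intro a ⟨u, hu⟩ w hw
    refine hα (fun u => (a u : ZMod p)) ?_ ⟨w, ?_⟩
    · intro h0
      apply hu
      exact (ZMod.natCast_eq_zero_iff (a u) p).mp (congrFun h0 u)
    · rw [hw]
      refine Finset.sum_congr rfl fun u _ => ?_
      rw [ZMod.val_natCast, ← CharP.cast_eq_mod L p (a u)]

end Pool.CND
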